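import Pool.Agent.Y345.QP.Pow

/-!
# Quantum symmetry of Cartesian powers and of Cartesian products with multiplicities

Stronger form of `MP_a717c1_al.CartesianSquare` (the Cartesian square).  Definitions used in the
statement: `NoQuantumSymmetry` (in `Pool.Agent.Helper741.QSym.Magic`) and the Cartesian product
`boxPi` of a family of graphs (in `Pool.Agent.Helper741.QSym.Box`): two vertices (choices of one
vertex in every factor) are adjacent if they differ in exactly one coordinate and are adjacent in
that coordinate.

Proof.  `K₂` is a prime factor: a product of connected graphs without factor `K₂` has no factor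
`K₂` (by the structure lemma of the starting library, applied to the difference of the distances to
the two ends of an edge of the `K₂`-direction).  So the theorem on squares can be iterated, and
gives the powers with exponent `2 ^ m`; quantum symmetry passes from a factor to a product, and every
product with multiplicities is a factor of a high power.
-/

set_option autoImplicit false

namespace Pool.Agent.Results.MP_a717c1_al.CartesianPowers

open Pool.Agent.H741.QS Pool.Agent.Y345.QP

/-- The complete graph on two vertices is a Cartesian factor of `X`. -/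
def HasK2Factor {V : Type} (X : SimpleGraph V) : Prop :=
  ∃ (W : Type) (Y : SimpleGraph W), Nonempty (X ≃g ((⊤ : SimpleGraph Bool) □ Y))

theorem noK2_iff {V : Type} [Fintype V] (X : SimpleGraph V) : NoK2 X ↔ ¬ HasK2Factor X := by
  constructor
  · rintro h ⟨W, Y, ⟨e⟩⟩
    have : Finite (Bool × W) := Finite.of_equiv V e.toEquiv
    have : Finite W := Finite.of_surjective (Prod.snd : Bool × W → W)
      fun w => ⟨(true, w), rfl⟩
    have := Fintype.ofFinite W
    exact (h W Y).false e
  · intro h W _ Y
    exact ⟨fun e => h ⟨W, Y, ⟨e⟩⟩⟩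

theorem power {V : Type} [Fintype V] [Nonempty V] (X : SimpleGraph V) (n : ℕ) (hn : 2 ≤ n) :
    NoQuantumSymmetry (boxPi fun _ : Fin n => X) ↔
      X.Connected ∧ NoQuantumSymmetry X ∧ ¬ HasK2Factor X := by
  classical
  have h1 := mult_iff (fun _ : Unit => X) (fun _ => n) (fun _ => hn)
  have h2 : NoQuantumSymmetry (boxPi fun _ : Fin n => X) ↔
      NoQuantumSymmetry (boxPi fun k : (_ : Unit) × Fin n => X) := by
    constructor
    · intro h
      exact noqs_sub (fun _ : Fin n => X) (fun k : (_ : Unit) × Fin n => k.2) (by
        rintro ⟨a, b⟩ ⟨c, d⟩ h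
        have h' : b = d := h
        rw [h']) h
    · intro h
      exact noqs_sub (fun _ : (_ : Unit) × Fin n => X)
        (fun k : Fin n => (⟨(), k⟩ : (_ : Unit) × Fin n)) (by
        intro a b h
        simpa using h) h
  have h3 : NoQuantumSymmetry (boxPi fun _ : Unit => X) ↔ NoQuantumSymmetry X :=
    ⟨fun h => noqs_of_iso (unitIso X) h, fun h => noqs_of_iso (unitIso X).symm h⟩
  rw [h2, h1, h3, ← noK2_iff]
  exact ⟨fun h => ⟨h.1 (), h.2.1, h.2.2 ()⟩, fun h => ⟨fun _ => h.1, h.2.1, fun _ => h.2.2⟩⟩

/-- **Quantum symmetry of Cartesian powers and products.**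
(1) The Cartesian square of a finite nonempty graph `X` has no quantum symmetry if and only if `X`
is connected, `X` has no quantum symmetry and `K₂` is not a Cartesian factor of `X`.
(2) The same holds for the `n`-th Cartesian power of `X`, for every `n ≥ 2`.
(3) Let `X i`, `i ∈ ι`, be finitely many finite nonempty graphs and `a i ≥ 2`. The Cartesian product
of `a i` copies of `X i`, for all `i`, has no quantum symmetry if and only if all `X i` are
connected and have no Cartesian factor `K₂`, and the Cartesian product of the `X i` has no quantum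
symmetry.
(4) If the `X i` are connected without Cartesian factor `K₂` and `a i ≥ 1`, then the Cartesian
product of `a i` copies of `X i`, for all `i`, has no quantum symmetry if and only if the Cartesian
product of the `X i` has none: the multiplicities do not matter. -/
theorem result :
    (∀ (V : Type) [Fintype V] [Nonempty V] (X : SimpleGraph V),
      NoQuantumSymmetry (X □ X) ↔ X.Connected ∧ NoQuantumSymmetry X ∧ ¬ HasK2Factor X) ∧
    (∀ (V : Type) [Fintype V] [Nonempty V] (X : SimpleGraph V) (n : ℕ), 2 ≤ n →
      (NoQuantumSymmetry (boxPi fun _ : Fin n => X) ↔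
        X.Connected ∧ NoQuantumSymmetry X ∧ ¬ HasK2Factor X)) ∧
    (∀ (ι : Type) [Fintype ι] [DecidableEq ι] (V : ι → Type) [∀ i, Fintype (V i)]
      [∀ i, Nonempty (V i)] (X : ∀ i, SimpleGraph (V i)) (a : ι → ℕ), (∀ i, 2 ≤ a i) →
      (NoQuantumSymmetry (boxPi fun k : (i : ι) × Fin (a i) => X k.1) ↔
        (∀ i, (X i).Connected) ∧ NoQuantumSymmetry (boxPi X) ∧ ∀ i, ¬ HasK2Factor (X i))) ∧
    (∀ (ι : Type) [Fintype ι] [DecidableEq ι] (V : ι → Type) [∀ i, Fintype (V i)]
      [∀ i, Nonempty (V i)] (X : ∀ i, SimpleGraph (V i)) (a : ι → ℕ), (∀ i, 1 ≤ a i) →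
      (∀ i, (X i).Connected) → (∀ i, ¬ HasK2Factor (X i)) →
      (NoQuantumSymmetry (boxPi fun k : (i : ι) × Fin (a i) => X k.1) ↔
        NoQuantumSymmetry (boxPi X))) := by
  refine ⟨?_, fun V _ _ X n hn => power X n hn, ?_, ?_⟩
  · intro V _ _ X
    rw [main X, noK2_iff]
  · intro ι _ _ V _ _ X a ha
    rw [mult_iff X a ha]
    simp only [noK2_iff]
  · intro ι _ _ V _ _ X a ha h1 h2
    constructor
    · intro h
      exact noqs_sub (fun k : (i : ι) × Fin (a i) => X k.1)
        (fun i : ι => (⟨i, ⟨0, ha i⟩⟩ : (i : ι) × Fin (a i))) (fun i j h => congrArg Sigma.fst h) h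
    · intro h
      exact noqs_mult X h1 h (fun i => (noK2_iff (X i)).2 (h2 i)) a

end Pool.Agent.Results.MP_a717c1_al.CartesianPowers
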